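import Pool.Agent.Helper86.TC8.Base
import Pool.Agent.Helper86.TC8.Stmts

/-!
Large girth cubic graphs are 4-total-colourable: girth gives freeness (module GFREE).
-/

set_option autoImplicit false

namespace Pool.Agent.Helper53.TC8

open Finset Pool.Agent.Helper86.TC8

variable {V : Type}

/-- the walk of a word -/
def wk (G : SimpleGraph V) (X : CG V) (h : ∀ c x, G.Adj x (act1 X c x)) :
    (w : List L) → (x : V) → G.Walk (act X w x) x
  | [], x => SimpleGraph.Walk.nil
  | a :: w, x => SimpleGraph.Walk.cons (h a (act X w x)).symm (wk G X h w x)

theorem length_wk (G : SimpleGraph V) (X : CG V) (h : ∀ c x, G.Adj x (act1 X c x)) (w : List L)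
    (x : V) : (wk G X h w x).length = w.length := by
  induction w with
  | nil => rfl
  | cons a w ih =>
    change (wk G X h w x).length + 1 = w.length + 1
    rw [ih]

theorem mem_support_wk (G : SimpleGraph V) (X : CG V) (h : ∀ c x, G.Adj x (act1 X c x))
    (w : List L) (x y : V) (hy : y ∈ (wk G X h w x).support) :
    ∃ v t : List L, w = v ++ t ∧ y = act X t x := by
  induction w with
  | nil =>
    change y ∈ [x] at hy
    rw [List.mem_singleton] at hy
    exact ⟨[], [], rfl, hy⟩
  | cons a w ih =>
    change y ∈ act X (a :: w) x :: (wk G X h w x).support at hy
    rw [List.mem_cons] at hy
    rcases hy with rfl | hy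
    · exact ⟨[], a :: w, rfl, rfl⟩
    · obtain ⟨v, t, rfl, rfl⟩ := ih hy
      exact ⟨a :: v, t, rfl, rfl⟩

theorem st_GFREE : ST_GFREE := by
  intro V _ G X g hadj hne hg
  -- strong induction on the length
  have key : ∀ k : ℕ, ∀ w : List L, w.length = k → Red w → w ≠ [] → w.length ≤ g →
      ∀ x, act X w x ≠ x := by
    intro k
    induction k using Nat.strong_induction_on with
    | _ k ih =>
      intro w hk hr hw0 hwg x hx
      -- nodup of the supports of proper parts
      have hnd : ∀ u : List L, Red u → u.length < k → (wk G X hadj u x).support.Nodup := by
        intro u
        induction u with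
        | nil =>
          intro _ _
          exact List.nodup_singleton x
        | cons a u ihu =>
          intro hru hlu
          change (act X (a :: u) x :: (wk G X hadj u x).support).Nodup
          rw [List.nodup_cons]
          refine ⟨?_, ihu hru.tail (by simp only [List.length_cons] at hlu; omega)⟩
          intro hmem
          obtain ⟨v, t, rfl, ht⟩ := mem_support_wk G X hadj u x _ hmem
          have e : act X (a :: (v ++ t)) x = act X (a :: v) (act X t x) := by
            rw [← List.cons_append, act_append]
          rw [e] at ht
          have hrv : Red (a :: v) := by
            rw [← List.cons_append] at hru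
            exact hru.of_append_left
          simp only [List.length_cons, List.length_append] at hlu
          exact ih (a :: v).length (by simp only [List.length_cons]; omega) (a :: v) rfl hrv
            (by simp) (by simp only [List.length_cons]; omega) _ ht
      -- the first letter
      obtain ⟨a, u, rfl⟩ := List.exists_cons_of_ne_nil hw0
      simp only [List.length_cons] at hk hwg
      have hp : (wk G X hadj u x).IsPath :=
        SimpleGraph.Walk.IsPath.mk' (hnd u hr.tail (by omega))
      have ha : G.Adj x (act X u x) := by
        have h1 := (hadj a (act X u x)).symm
        have h2 : act1 X a (act X u x) = x := hx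
        rwa [h2] at h1
      by_cases he : s(x, act X u x) ∈ (wk G X hadj u x).edges
      · -- then `u` has length `1`
        rcases u with _ | ⟨c, u⟩
        · exact G.irrefl ha
        · have he' : s(x, act X (c :: u) x) ∈ s(act X (c :: u) x, act X u x) ::
              (wk G X hadj u x).edges := he
          rw [List.mem_cons] at he'
          rcases he' with he' | he'
          · have hxu : x = act X u x := by
              rw [Sym2.eq_iff] at he'
              rcases he' with ⟨h1, h2⟩ | ⟨h1, -⟩
              · exact absurd h1 ha.ne
              · exact h1
            by_cases hu : u = []
            · subst hu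
              -- word of length two
              have h2 : act1 X a (act1 X c x) = x := hx
              have h3 : act1 X c.inv (act1 X c x) = x := act1_inv X c x
              have hac : a ≠ c.inv := (red_cons_cons.mp hr).1
              obtain ⟨n1, n2, n3⟩ := hne (act1 X c x)
              have h4 : act1 X a (act1 X c x) = act1 X c.inv (act1 X c x) := by rw [h2, h3]
              cases a <;> cases c <;> simp only [L.inv, act1, ne_eq, not_true_eq_false] at hac h4 n1 n2 n3
              all_goals first
                | exact n1 h4
                | exact n1 h4.symm
                | exact n2 h4
                | exact n2 h4.symm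
                | exact n3 h4
                | exact n3 h4.symm
            · simp only [List.length_cons] at hk hwg
              exact ih u.length (by omega) u rfl hr.tail.tail hu (by omega) x hxu.symm
          · have h5 := (wk G X hadj u x).snd_mem_support_of_mem_edges he'
            have h6 := hnd (c :: u) hr.tail (by simp only [List.length_cons] at hk ⊢; omega)
            change (act X (c :: u) x :: (wk G X hadj u x).support).Nodup at h6
            rw [List.nodup_cons] at h6
            exact h6.1 h5
      · have hc : (SimpleGraph.Walk.cons ha (wk G X hadj u x)).IsCycle :=
          (SimpleGraph.Walk.cons_isCycle_iff _ ha).mpr ⟨hp, he⟩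
        have := hg x _ hc
        rw [SimpleGraph.Walk.length_cons, length_wk] at this
        omega
  intro w hr hw0 hwg x
  exact key w.length w rfl hr hw0 hwg x

end Pool.Agent.Helper53.TC8
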