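import Pool.Agent.Helper86.TC8.Base
import Pool.Agent.Helper86.TC8.Stmts

/-!
Large girth cubic graphs are 4-total-colourable: cubic graphs with a perfect matching (module PMG).
-/

set_option autoImplicit false

namespace Pool.Agent.Helper53.TC8

open Finset Pool.Agent.Helper86.TC8

theorem st_PMG : ST_MAIN1 → ST_ORI → ST_GFREE → ST_PMG := by
  intro hmain hori hgf
  classical
  obtain ⟨g0, hg0⟩ := hmain
  refine ⟨g0 + 1, ?_⟩
  rintro V _ G hreg hgirth ⟨M, hM⟩
  have hM' := SimpleGraph.Subgraph.isPerfectMatching_iff.mp hM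
  choose nu hnu hnu' using hM'
  -- the 2-factor
  let H : SimpleGraph V :=
    { Adj := fun x y => G.Adj x y ∧ ¬ M.Adj x y
      symm := ⟨fun x y h => ⟨h.1.symm, fun hc => h.2 hc.symm⟩⟩
      loopless := ⟨fun x h => h.1.ne rfl⟩ }
  have hH2 : Reg H 2 := by
    intro v
    have e : G.neighborSet v = insert (nu v) (H.neighborSet v) := by
      ext y
      simp only [SimpleGraph.mem_neighborSet, Set.mem_insert_iff]
      constructor
      · intro hy
        by_cases hm : M.Adj v y
        · left
          exact hnu' v y hm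
        · right
          exact ⟨hy, hm⟩
      · rintro (rfl | hy)
        · exact (hnu v).adj_sub
        · exact hy.1
    have h3 := hreg v
    rw [e, Set.ncard_insert_of_notMem] at h3
    · omega
    · intro hc
      exact hc.2 (hnu v)
  obtain ⟨fw, bw, h1, h2, h3, h4⟩ := hori V H hH2
  have hnn : ∀ x, nu (nu x) = x := fun x => (hnu' (nu x) x (hnu x).symm).symm
  let X : CG V := ⟨nu, fw, bw, hnn, h1, h2⟩
  have hHf : ∀ x, H.Adj x (fw x) := fun x => (h3 x _).mpr (Or.inl rfl)
  have hHb : ∀ x, H.Adj x (bw x) := fun x => (h3 x _).mpr (Or.inr rfl)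
  have hadj : ∀ c x, G.Adj x (act1 X c x) := by
    intro c x
    cases c
    · exact (hnu x).adj_sub
    · exact (hHb x).1
    · exact (hHf x).1
  have hne : ∀ x, X.nu x ≠ X.fw x ∧ X.nu x ≠ X.bw x ∧ X.fw x ≠ X.bw x := by
    intro x
    refine ⟨?_, ?_, h4 x⟩
    · intro hc
      apply (hHf x).2
      have : M.Adj x (nu x) := hnu x
      have hc' : nu x = fw x := hc
      rwa [hc'] at this
    · intro hc
      apply (hHb x).2
      have : M.Adj x (nu x) := hnu x
      have hc' : nu x = bw x := hc
      rwa [hc'] at this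
  have hfree : Free X g0 := hgf V G X g0 hadj hne hgirth
  have : Fintype V := Fintype.ofFinite V
  obtain ⟨vc, ec, e1, e2, e3, e4⟩ := hg0 V X hfree
  -- uniqueness of the letter
  have huniq : ∀ c c' x, act1 X c x = act1 X c' x → c = c' := by
    intro c c' x h
    obtain ⟨n1, n2, n3⟩ := hne x
    cases c <;> cases c' <;> first
      | rfl
      | exact absurd h n1
      | exact absurd h.symm n1
      | exact absurd h n2
      | exact absurd h.symm n2
      | exact absurd h n3
      | exact absurd h.symm n3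
  have hex : ∀ u v, G.Adj u v → ∃ c, v = act1 X c u := by
    intro u v huv
    by_cases hm : M.Adj u v
    · exact ⟨L.n, hnu' u v hm⟩
    · rcases (h3 u v).mp ⟨huv, hm⟩ with h | h
      · exact ⟨L.f, h⟩
      · exact ⟨L.b, h⟩
  let e : Col ≃ Fin 4 := Fintype.equivFinOfCardEq (by simp [Col])
  let d : V → V → Fin 4 := fun u v => if h : ∃ c, v = act1 X c u then e (ec h.choose u) else 0
  have hd : ∀ c u, d u (act1 X c u) = e (ec c u) := by
    intro c u
    have h : ∃ c', act1 X c u = act1 X c' u := ⟨c, rfl⟩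
    change (if h : ∃ c', act1 X c u = act1 X c' u then e (ec h.choose u) else 0) = _
    rw [dif_pos h, ← huniq _ _ u h.choose_spec]
  refine ⟨fun v => e (vc v), d, ?_, ?_, ?_, ?_⟩
  · intro u v huv
    obtain ⟨c, rfl⟩ := hex u v huv
    rw [hd]
    have h5 := hd c.inv (act1 X c u)
    rw [act1_inv] at h5
    rw [h5, ← e1]
  · intro u v huv
    obtain ⟨c, rfl⟩ := hex u v huv
    intro h
    exact e2 c u (e.injective h)
  · intro u v w huv huw hvw
    obtain ⟨c, rfl⟩ := hex u v huv
    obtain ⟨c', rfl⟩ := hex u w huw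
    rw [hd, hd]
    intro h
    refine e4 c c' u ?_ (e.injective h)
    rintro rfl
    exact hvw rfl
  · intro u v huv
    obtain ⟨c, rfl⟩ := hex u v huv
    rw [hd]
    intro h
    exact e3 c u (e.injective h)

end Pool.Agent.Helper53.TC8
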